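import Mathlib
import Pool.Agent.R556.SumDiff

/-!
# MP_ee2194_co: `df(G) ≥ (1 + 2/5) ⌈sm(G)/2⌉` for trees with arbitrarily large sum index
-/

set_option autoImplicit false

namespace Pool.Agent.Results.MP_ee2194_co.ConstantFactor

open Pool.Agent.R556.SumDiff

/-- There is a constant `β > 0` such that for every `N` there is a finite graph `G` with at least
one edge, `sm(G) ≥ N` and `df(G) ≥ (1 + β) ⌈sm(G)/2⌉`. -/
theorem result : ∃ β : ℝ, 0 < β ∧ ∀ N : ℕ, ∃ (V : Type) (_ : Fintype V) (G : SimpleGraph V),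
    (∃ u v, G.Adj u v) ∧ N ≤ sumIndex G ∧
    (1 + β) * (⌈(sumIndex G : ℝ) / 2⌉ : ℝ) ≤ diffIndex G := by
  refine ⟨2 / 5, by norm_num, fun N => ?_⟩
  set n := 10 * (N + 10) with hn
  refine ⟨TV n, inferInstance, T n, ⟨_, _, adj_root n ⟨0, by omega⟩⟩, ?_⟩
  rw [sumIndex_T]
  refine ⟨by omega, ?_⟩
  have h1 : ⌈((n : ℕ) : ℝ) / 2⌉ = 5 * (N + 10) := by
    rw [hn]
    push_cast
    have : (10 * ((N : ℝ) + 10)) / 2 = ((5 * (N + 10) : ℤ) : ℝ) := by push_cast; ring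
    rw [this, Int.ceil_intCast]
  rw [h1]
  have h2 := diffIndex_T n
  set m := diffIndex (T n) with hm
  have h3 : 7 * (N + 10) ≤ m := by
    by_contra hc
    push Not at hc
    have h4 : m * (2 * m + 1) ≤ (7 * (N + 10)) * (2 * (7 * (N + 10)) - 1) := by
      apply Nat.mul_le_mul <;> omega
    have h5 : n * (n - 1) = 10 * (N + 10) * (10 * (N + 10) - 1) := by rw [hn]
    rw [h5] at h2
    have h6 := h2.trans h4
    obtain ⟨j, hj⟩ : ∃ j, j = N + 10 := ⟨_, rfl⟩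
    rw [← hj] at h6
    have hj2 : 10 ≤ j := by omega
    obtain ⟨a, ha⟩ : ∃ a, 10 * j - 1 = a := ⟨_, rfl⟩
    obtain ⟨b, hb⟩ : ∃ b, 2 * (7 * j) - 1 = b := ⟨_, rfl⟩
    have ha' : a + 1 = 10 * j := by omega
    have hb' : b + 1 = 14 * j := by omega
    rw [ha, hb] at h6
    nlinarith
  have h7 : ((7 * (N + 10) : ℕ) : ℝ) ≤ (m : ℝ) := by exact_mod_cast h3
  push_cast at h7 ⊢
  linarith

end Pool.Agent.Results.MP_ee2194_co.ConstantFactor
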